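import Pool.Agent.H.MP_a8c71c_co.B

namespace Pool.Agent.Results.MP_a8c71c_co.Counter

open Pool.Agent.H.MP_a8c71c_co

theorem result : (∀ n : ℕ, 10 ≤ n → satStar n 4 ≤ 6 * n + 1) ∧
    ¬ ∀ k : ℕ, 3 ≤ k → ∃ c : ℤ, ∀ᶠ n : ℕ in Filter.atTop,
      (satStar n k : ℤ) = (2 ^ (k - 1) - 1) * n - c := by
  refine ⟨fun n hn => upper hn, fun h => ?_⟩
  obtain ⟨c, hc⟩ := h 4 (by norm_num)
  obtain ⟨n, h1, h2, h3⟩ :=
    (hc.and ((Filter.eventually_ge_atTop 10).and (Filter.eventually_ge_atTop (c.toNat + 2)))).exists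
  have := upper h2
  norm_num at h1
  omega

end Pool.Agent.Results.MP_a8c71c_co.Counter
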